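import Mathlib
import Pool.Agent.Y729.AE.Frey
import Pool.Agent.Y729.AE.Low2

/-!
# Violators of Frey's inequality among the Weil restrictions of all elliptic curves to a number field

Let `K` be a number field and `g ≥ 1`. Frey asks for constants `κ`, `c` with
`h_F(A) ≤ κ log N_A + c` for all abelian varieties `A` over `K` of dimension `g`. We count the
violators among the Weil restrictions `A = Res_{L/K} E`, where `L` runs over ALL extensions of `K`
of degree `g` and `E` over ALL elliptic curves over `L`.

The height is the (unstable) Faltings height of the Néron model over `O_K`. The Néron model of `A`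
is the Weil restriction of the one of `E`, so that `[K : ℚ] h_F(A)` is the Arakelov degree of
`det π_*(ω_E ⊗ 𝔇⁻¹)`, that is `[L : ℚ] h_F(E/L) + (1 / 2) log (|D_L| / |D_K| ^ g)`, and Silverman's
formula expresses `h_F(E/L)` in terms of the minimal discriminant of `E` and the periods. The
conductor is `N_A = N(f_E) (|D_L| / |D_K| ^ g) ^ 2` (Milne), where `f_E` is the conductor of `E`, so
that it is a multiple of the number `N` in `Violators`.

The proof combines
* for every `E`, a cubic, quadratic or trivial extension `F/L` generated by a point of order two,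
  which is unramified at the good primes not dividing `2`, so that its discriminant bounds from
  below the product of the bad primes;
* a bound of Schmidt's type for the number of extensions `F/L` of degree at most `3`, uniform in `L`,
  and bounds for the number of extensions `L/K` of degree `g` (Schmidt, Lemke Oliver - Thorne);
* a count of the Legendre parameters in the normal closure of `F/L`, uniform in this field.
-/

set_option autoImplicit false

namespace Pool.Agent.Results.MP_6babc4_nt.AllWeilRestrictions

open NumberField IsDedekindDomain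

/-- the modular invariant `j(τ) = E₄(τ) ^ 3 / Δ(τ) = 1 / q + 744 + ⋯` -/
noncomputable def jInv (τ : UpperHalfPlane) : ℂ :=
  ModularForm.E₄ τ ^ 3 / ModularForm.discriminant τ

/-- the archimedean term `- log (|Δ(τ)| (Im τ) ^ 6)` of the Faltings height -/
noncomputable def arch (τ : UpperHalfPlane) : ℝ :=
  -Real.log (‖ModularForm.discriminant τ‖ * τ.im ^ 6)

/-- the points `τ w` have modular invariant `j` -/
def IsPeriod {K : Type} [Field K] [NumberField K] (j : K)
    (τ : InfinitePlace K → UpperHalfPlane) : Prop := ∀ w, jInv (τ w) = w.embedding j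

/-- the equation is integral at `v` -/
def IntAt {K : Type} [Field K] [NumberField K] (v : HeightOneSpectrum (𝓞 K))
    (E : WeierstrassCurve K) : Prop :=
  v.valuation K E.a₁ ≤ 1 ∧ v.valuation K E.a₂ ≤ 1 ∧ v.valuation K E.a₃ ≤ 1 ∧
    v.valuation K E.a₄ ≤ 1 ∧ v.valuation K E.a₆ ≤ 1

/-- the exponent of `v` in the minimal discriminant of the curve: the least valuation at `v` of the
discriminant of a Weierstrass equation of the curve over `K` which is integral at `v` -/
noncomputable def discExp {K : Type} [Field K] [NumberField K] (v : HeightOneSpectrum (𝓞 K))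
    (E : WeierstrassCurve K) : ℕ :=
  sInf {m : ℕ | ∃ C : WeierstrassCurve.VariableChange K, IntAt v (C • E) ∧
    v.valuation K (C • E).Δ = WithZero.exp (-(m : ℤ))}

/-- the Faltings height over `K` of the Weil restriction `A = Res_{L/K} E` of an elliptic curve `E`
over `L` (up to an additive constant which depends on the normalisation of the metric only):
`12 [K : ℚ] h_F(A)` is the sum of the logarithm of the norm of the minimal discriminant of `E`, of
the archimedean terms, and of `6 log (|D_L| / |D_K| ^ [L : K])` -/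
noncomputable def height (K : Type) [Field K] [NumberField K] {L : Type} [Field L] [NumberField L]
    [Algebra K L] (E : WeierstrassCurve L) (τ : InfinitePlace L → UpperHalfPlane) : ℝ :=
  (∑ᶠ v : HeightOneSpectrum (𝓞 L), (discExp v E : ℝ) * Real.log (Ideal.absNorm v.asIdeal : ℝ) +
    ∑ w : InfinitePlace L, (w.mult : ℝ) * arch (τ w) +
    6 * (Real.log |(discr L : ℝ)| - Module.finrank K L * Real.log |(discr K : ℝ)|)) /
    (12 * Module.finrank ℚ K)

/-- good reduction at `v`: some Weierstrass equation over `K` of the curve is integral at `v` and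
has a discriminant which is a unit at `v` -/
def GoodAt {K : Type} [Field K] [NumberField K] (v : HeightOneSpectrum (𝓞 K))
    (E : WeierstrassCurve K) : Prop :=
  ∃ C : WeierstrassCurve.VariableChange K,
    v.valuation K (C • E).a₁ ≤ 1 ∧ v.valuation K (C • E).a₂ ≤ 1 ∧ v.valuation K (C • E).a₃ ≤ 1 ∧
    v.valuation K (C • E).a₄ ≤ 1 ∧ v.valuation K (C • E).a₆ ≤ 1 ∧ v.valuation K (C • E).Δ = 1

/-- the product of the norms of the primes of bad reduction; it divides the norm of the
conductor -/
noncomputable def badNorm {K : Type} [Field K] [NumberField K] (E : WeierstrassCurve K) : ℝ :=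
  ∏ᶠ v ∈ {v : HeightOneSpectrum (𝓞 K) | ¬ GoodAt v E}, (Ideal.absNorm v.asIdeal : ℝ)

/-- The pairs `(L, j)` where `L` is an extension of `K` of degree `g` (in the algebraic closure of
`K`) and `j ∈ L` is the modular invariant of an elliptic curve `E` over `L` such that
`A = Res_{L/K} E` has Faltings height `h_F(A) ≤ log B`. -/
def Family (K : Type) [Field K] [NumberField K] (g : ℕ) (B : ℝ) :
    Set (IntermediateField K (AlgebraicClosure K) × AlgebraicClosure K) :=
  {p | ∃ (_ : NumberField p.1) (E : WeierstrassCurve p.1) (τ : InfinitePlace p.1 → UpperHalfPlane),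
    Module.finrank K p.1 = g ∧ E.Δ ≠ 0 ∧
    ((E.c₄ ^ 3 / E.Δ : p.1) : AlgebraicClosure K) = p.2 ∧
    IsPeriod (E.c₄ ^ 3 / E.Δ) τ ∧ height K E τ ≤ Real.log B}

/-- The pairs `(L, j)` for which there is an elliptic curve `E` over `L` as in `Family` such that
moreover `h_F(A) > κ log N + c`, where `N = badNorm E * (|D_L| / |D_K| ^ g) ^ 2` is a divisor of the
conductor of `A = Res_{L/K} E`. -/
def Violators (K : Type) [Field K] [NumberField K] (g : ℕ) (κ c B : ℝ) :
    Set (IntermediateField K (AlgebraicClosure K) × AlgebraicClosure K) :=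
  {p | ∃ (_ : NumberField p.1) (E : WeierstrassCurve p.1) (τ : InfinitePlace p.1 → UpperHalfPlane),
    Module.finrank K p.1 = g ∧ E.Δ ≠ 0 ∧
    ((E.c₄ ^ 3 / E.Δ : p.1) : AlgebraicClosure K) = p.2 ∧
    IsPeriod (E.c₄ ^ 3 / E.Δ) τ ∧ height K E τ ≤ Real.log B ∧
    κ * Real.log (badNorm E * (|(discr p.1 : ℝ)| / |(discr K : ℝ)| ^ g) ^ 2) + c < height K E τ}

/-- The exponent `(g + 2) * (g - 1) / (4 * (g - g / p))`, `p` the least prime factor of `g`; it is
`1`, `5 / 4`, `9 / 4`, `7 / 4` for `g = 2, 3, 4, 5`, and `(g + 2) / 4` for every prime `g`. -/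
noncomputable def expo (g : ℕ) : ℝ :=
  (((g + 2) * (g - 1) : ℕ) : ℝ) / (4 * ((g - g / g.minFac : ℕ) : ℝ))

/-- **Violators of Frey's inequality among the Weil restrictions of elliptic curves to a number
field.** (A) There are exponents `a g` with `a 1 = 5 / 2`, `a g ≤ max (5 / 2) (15 / 8 + expo g / 2)`
for `g ≥ 2` (so that `a 2 = a 3 = 5 / 2` is admissible) and `a g = O(log ^ 2 g)` such that, for
every number field `K`, every `g ≥ 1`, all `κ, δ > 0` and every `c`, at most `M B ^ (a g / κ + δ)`
pairs `(L, j)` with `h_F(A) ≤ log B` violate `h_F(A) ≤ κ log N_A + c`. (B) The family has at least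
`b B ^ (6 [K : ℚ])` members with `h_F(A) ≤ log B`. -/
theorem result :
    (∃ a : ℕ → ℝ,
      (∀ c : ℝ, 1 / (16 * (Real.log 2) ^ 2) < c →
        ∀ᶠ g : ℕ in Filter.atTop, a g ≤ c * (Real.log g) ^ 2) ∧
      a 1 = 5 / 2 ∧ (∀ g : ℕ, 2 ≤ g → a g ≤ max (5 / 2) (15 / 8 + expo g / 2)) ∧
      ∀ (K : Type) [Field K] [NumberField K] (g : ℕ), 1 ≤ g → ∀ κ c δ : ℝ, 0 < κ → 0 < δ →
        ∃ M : ℝ, ∀ B : ℝ, 1 ≤ B → (Violators K g κ c B).Finite ∧
          ((Violators K g κ c B).ncard : ℝ) ≤ M * B ^ (a g / κ + δ)) ∧
    (∀ (K : Type) [Field K] [NumberField K] (g : ℕ), 1 ≤ g → ∃ b : ℝ, 0 < b ∧ ∃ B₀ : ℝ,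
      ∀ B : ℝ, B₀ ≤ B →
        ∃ F : Finset (IntermediateField K (AlgebraicClosure K) × AlgebraicClosure K),
          (F : Set (IntermediateField K (AlgebraicClosure K) × AlgebraicClosure K)) ⊆
            Family K g B ∧
          b * B ^ (6 * Module.finrank ℚ K) ≤ F.card) :=
  ⟨Pool.Agent.Y729.AE.final3, Pool.Agent.Y729.AE.lowK⟩

end Pool.Agent.Results.MP_6babc4_nt.AllWeilRestrictions
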